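import Pool.Agent.Y503.RB.Stm

/-!
Critical points of the height (RB-HESS).
-/

set_option autoImplicit false
set_option linter.all false

namespace Pool.Agent.Y141.RB

open scoped ContDiff RealInnerProductSpace ENNReal Topology
open MeasureTheory Set Filter
open Pool.Agent.Y503.RB

section gen
variable {X F : Type*} [NormedAddCommGroup X] [NormedSpace ℝ X]
  [NormedAddCommGroup F] [NormedSpace ℝ F]

theorem cd_fd {f : X → F} {y : X} (hf : ContDiffAt ℝ ∞ f y) :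
    ContDiffAt ℝ ∞ (fderiv ℝ f) y := hf.fderiv_right (m := ∞) (by simp)

theorem cd_fd_apply {f : X → F} {y : X} (hf : ContDiffAt ℝ ∞ f y) (b : X) :
    ContDiffAt ℝ ∞ (fun z => fderiv ℝ f z b) y := (cd_fd hf).clm_apply contDiffAt_const

theorem fd_fd_apply {f : X → F} {y : X} (hf : ContDiffAt ℝ ∞ f y) (a b : X) :
    fderiv ℝ (fun z => fderiv ℝ f z b) y a = fderiv ℝ (fderiv ℝ f) y a b := by
  have h1 : DifferentiableAt ℝ (fderiv ℝ f) y := (cd_fd hf).differentiableAt (by simp)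
  have h2 : HasFDerivAt (fun z => fderiv ℝ f z b)
      ((ContinuousLinearMap.apply ℝ F b).comp (fderiv ℝ (fderiv ℝ f) y)) y :=
    (ContinuousLinearMap.apply ℝ F b).hasFDerivAt.comp y h1.hasFDerivAt
  rw [h2.fderiv]
  rfl

theorem ev_diff {f : X → F} {y : X} (hf : ContDiffAt ℝ ∞ f y) :
    ∀ᶠ w in 𝓝 y, DifferentiableAt ℝ f w := by
  have h1 : ContDiffAt ℝ 1 f y := hf.of_le (by simp)
  exact (h1.eventually (by simp)).mono fun w hw => hw.differentiableAt (by simp)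

end gen

section nsq
variable {X : Type*} [NormedAddCommGroup X] [NormedSpace ℝ X]

/-- derivative of the square of the norm -/
theorem nsq1 {ψ : X → E4} {w : X} (h : DifferentiableAt ℝ ψ w) (v : X) :
    fderiv ℝ (fun w => ‖ψ w‖ ^ 2) w v = 2 * ⟪ψ w, fderiv ℝ ψ w v⟫ := by
  rw [h.hasFDerivAt.norm_sq.fderiv]
  simp

/-- second derivative of the square of the norm -/
theorem nsq2 {ψ : X → E4} {z : X} (h : ContDiffAt ℝ ∞ ψ z) (u v : X) :
    fderiv ℝ (fun w => fderiv ℝ (fun w => ‖ψ w‖ ^ 2) w v) z u =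
      2 * (⟪ψ z, fderiv ℝ (fun w => fderiv ℝ ψ w v) z u⟫ + ⟪fderiv ℝ ψ z u, fderiv ℝ ψ z v⟫) := by
  have h1 : (fun w => fderiv ℝ (fun w => ‖ψ w‖ ^ 2) w v) =ᶠ[𝓝 z]
      fun w => 2 * ⟪ψ w, fderiv ℝ ψ w v⟫ := by
    filter_upwards [ev_diff h] with w hw
    exact nsq1 hw v
  have d1 : DifferentiableAt ℝ ψ z := h.differentiableAt (by simp)
  have d2 : DifferentiableAt ℝ (fun w => fderiv ℝ ψ w v) z :=
    (cd_fd_apply h v).differentiableAt (by simp)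
  rw [h1.fderiv_eq, fderiv_const_mul (d1.inner ℝ d2), ContinuousLinearMap.smul_apply,
    smul_eq_mul, fderiv_inner_apply ℝ d1 d2]

end nsq

theorem t_HESS : St_HESS := by
  intro ξ φ z hξ hφ hz hcrit
  obtain ⟨p, hp⟩ : ∃ p, p = φ z := ⟨_, rfl⟩
  obtain ⟨t, ht⟩ : ∃ t, t = ht ξ (φ z) := ⟨_, rfl⟩
  have hne : φ z ≠ ξ := by
    rintro h
    rw [h, hξ] at hz
    exact lt_irrefl _ hz
  have hD : 0 < ‖φ z - ξ‖ ^ 2 := pow_pos (norm_pos_iff.2 (sub_ne_zero.2 hne)) 2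
  have hN : 0 < 1 - ‖φ z‖ ^ 2 := by
    have := norm_nonneg (φ z)
    nlinarith
  have htD : t * ‖φ z - ξ‖ ^ 2 = 1 - ‖φ z‖ ^ 2 := by
    rw [ht]
    unfold Pool.Agent.Y503.RB.ht
    exact div_mul_cancel₀ _ hD.ne'
  have htp : 0 < t := by
    rw [ht]
    exact div_pos hN hD
  have hexp : ‖φ z - ξ‖ ^ 2 = ‖φ z‖ ^ 2 - 2 * ⟪φ z, ξ⟫ + 1 := by
    rw [norm_sub_sq_real, hξ, one_pow]
  have ht1 : (1 + t) ≠ 0 := by positivity
  obtain ⟨n, hn⟩ : ∃ n : E4, n = t • ξ - (1 + t) • φ z := ⟨_, rfl⟩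
  have hnn : ‖n‖ = 1 := by
    have h1 : ‖n‖ ^ 2 = 1 := by
      rw [hn, norm_sub_sq_real, norm_smul, norm_smul, hξ, real_inner_smul_left,
        real_inner_smul_right, real_inner_comm, mul_pow, mul_pow, Real.norm_eq_abs,
        Real.norm_eq_abs, sq_abs, sq_abs]
      rw [hexp] at htD
      linear_combination (1 + t) * htD
    have h2 := norm_nonneg n
    nlinarith [h1]
  have hpn : 1 + ⟪φ z, n⟫ = (1 + t) * (1 - ‖φ z‖ ^ 2) / 2 := by
    rw [hn, inner_sub_right, real_inner_smul_right, real_inner_smul_right,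
      real_inner_self_eq_norm_sq]
    rw [hexp] at htD
    linear_combination (-1 / 2) * htD
  have hrad : rad (φ z) n = (1 + t)⁻¹ := by
    unfold rad
    rw [hpn]
    field_simp
  have hr1 : 1 - (1 + t)⁻¹ = t / (1 + t) := by
    field_simp
    ring
  -- derivatives
  have hψ : ContDiffAt ℝ ∞ (fun w => φ w - ξ) z := hφ.sub contDiffAt_const
  have cN : ContDiffAt ℝ ∞ (fun w => ‖φ w‖ ^ 2) z := hφ.norm_sq ℝ
  have cD : ContDiffAt ℝ ∞ (fun w => ‖φ w - ξ‖ ^ 2) z := hψ.norm_sq ℝ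
  have cN' : ContDiffAt ℝ ∞ (fun w => 1 - ‖φ w‖ ^ 2) z := contDiffAt_const.sub cN
  obtain ⟨f, hf⟩ : ∃ f : ℂ → ℝ, f = fun w => Pool.Agent.Y503.RB.ht ξ (φ w) := ⟨_, rfl⟩
  have cf : ContDiffAt ℝ ∞ f z := by
    rw [hf]
    exact cN'.div cD hD.ne'
  have hft : f z = t := by rw [hf, ht]
  have evD : ∀ᶠ w in 𝓝 z, ‖φ w - ξ‖ ^ 2 ≠ 0 :=
    cD.continuousAt.eventually_ne hD.ne'
  have evE : (fun w => 1 - ‖φ w‖ ^ 2) =ᶠ[𝓝 z] fun w => f w * ‖φ w - ξ‖ ^ 2 := by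
    filter_upwards [evD] with w hw
    rw [hf]
    show 1 - ‖φ w‖ ^ 2 = (1 - ‖φ w‖ ^ 2) / ‖φ w - ξ‖ ^ 2 * ‖φ w - ξ‖ ^ 2
    rw [div_mul_cancel₀ _ hw]
  have evG : ∀ v : ℂ, (fun w => - fderiv ℝ (fun w => ‖φ w‖ ^ 2) w v) =ᶠ[𝓝 z]
      fun w => f w * fderiv ℝ (fun w => ‖φ w - ξ‖ ^ 2) w v + ‖φ w - ξ‖ ^ 2 * fderiv ℝ f w v := by
    intro v
    filter_upwards [evE.eventuallyEq_nhds, ev_diff cN, ev_diff cD, ev_diff cf] with w h1 h2 h3 h4
    have h5 := h1.fderiv_eq (𝕜 := ℝ)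
    have h6 : fderiv ℝ (fun w => 1 - ‖φ w‖ ^ 2) w v = - fderiv ℝ (fun w => ‖φ w‖ ^ 2) w v := by
      rw [fderiv_const_sub]
      rfl
    have h7 : fderiv ℝ (fun w => f w * ‖φ w - ξ‖ ^ 2) w v =
        f w * fderiv ℝ (fun w => ‖φ w - ξ‖ ^ 2) w v + ‖φ w - ξ‖ ^ 2 * fderiv ℝ f w v := by
      rw [fderiv_fun_mul h4 h3]
      rfl
    rw [← h6, ← h7, h5]
  have hf0 : ∀ v : ℂ, fderiv ℝ f z v = 0 := by
    intro v
    rw [hf, hcrit]
    rfl
  have dφ : DifferentiableAt ℝ φ z := hφ.differentiableAt (by simp)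
  have dψ : DifferentiableAt ℝ (fun w => φ w - ξ) z := hψ.differentiableAt (by simp)
  have eψ : ∀ w v : ℂ, fderiv ℝ (fun w => φ w - ξ) w v = fderiv ℝ φ w v := by
    intro w v
    rw [fderiv_sub_const]
  have hnor : ∀ v : ℂ, ⟪n, fderiv ℝ φ z v⟫ = 0 := by
    intro v
    have h1 := (evG v).eq_of_nhds
    simp only [hf0, mul_zero, add_zero, hft, nsq1 dφ, nsq1 dψ, eψ] at h1
    rw [hn, inner_sub_left, real_inner_smul_left, real_inner_smul_left]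
    rw [inner_sub_left] at h1
    linear_combination (1 / 2) * h1
  refine ⟨n, hnn, hnor, ?_, ?_, ?_, fun u v => ?_⟩
  · unfold foot
    rw [hrad, hr1, hn, smul_sub, smul_smul, smul_smul, inv_mul_cancel₀ ht1, one_smul,
      add_sub_cancel, smul_smul, inv_div]
    rw [show (1 + t) / t * ((1 + t)⁻¹ * t) = 1 by field_simp, one_smul]
  · rw [hrad]
    positivity
  · rw [hrad]
    exact inv_lt_one_of_one_lt₀ (by linarith)
  · have h1 := (evG v).fderiv_eq (𝕜 := ℝ)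
    have g1 : DifferentiableAt ℝ (fun w => fderiv ℝ (fun w => ‖φ w - ξ‖ ^ 2) w v) z :=
      (cd_fd_apply cD v).differentiableAt (by simp)
    have g2 : DifferentiableAt ℝ (fun w => fderiv ℝ f w v) z :=
      (cd_fd_apply cf v).differentiableAt (by simp)
    have g3 : DifferentiableAt ℝ f z := cf.differentiableAt (by simp)
    have g4 : DifferentiableAt ℝ (fun w => ‖φ w - ξ‖ ^ 2) z := cD.differentiableAt (by simp)
    have h2 := congrArg (fun L => L u) h1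
    have h3 : fderiv ℝ (fun w => - fderiv ℝ (fun w => ‖φ w‖ ^ 2) w v) z u =
        - fderiv ℝ (fun w => fderiv ℝ (fun w => ‖φ w‖ ^ 2) w v) z u := by
      rw [fderiv_fun_neg]
      rfl
    have h4 : fderiv ℝ (fun w => f w * fderiv ℝ (fun w => ‖φ w - ξ‖ ^ 2) w v +
        ‖φ w - ξ‖ ^ 2 * fderiv ℝ f w v) z u =
        (f z * fderiv ℝ (fun w => fderiv ℝ (fun w => ‖φ w - ξ‖ ^ 2) w v) z u +
          fderiv ℝ (fun w => ‖φ w - ξ‖ ^ 2) z v * fderiv ℝ f z u) +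
        (‖φ z - ξ‖ ^ 2 * fderiv ℝ (fun w => fderiv ℝ f w v) z u +
          fderiv ℝ f z v * fderiv ℝ (fun w => ‖φ w - ξ‖ ^ 2) z u) := by
      rw [fderiv_fun_add (g3.fun_mul g1) (g4.fun_mul g2), fderiv_fun_mul g3 g1, fderiv_fun_mul g4 g2]
      rfl
    simp only [h3, h4, hf0, mul_zero, zero_mul, add_zero, hft, nsq2 hφ, nsq2 hψ] at h2
    have e1 : (fun w => fderiv ℝ (fun w => φ w - ξ) w v) = fun w => fderiv ℝ φ w v := by
      funext w
      exact eψ w v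
    rw [e1, eψ, eψ] at h2
    have h5 : fderiv ℝ (fderiv ℝ fun w => Pool.Agent.Y503.RB.ht ξ (φ w)) z u v =
        fderiv ℝ (fun w => fderiv ℝ f w v) z u := by
      rw [fd_fd_apply cf, hf]
    rw [h5, ← ht]
    have hD' := hD.ne'
    have h6 : ‖φ z - ξ‖ ^ 2 * fderiv ℝ (fun w => fderiv ℝ f w v) z u =
        2 * (1 + t) * exc φ n u v z := by
      unfold exc sff fff
      rw [hrad]
      have h7 : (1 + t) * ((1 + t)⁻¹ * ⟪n, d2 φ u v z⟫) = ⟪n, d2 φ u v z⟫ := by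
        rw [← mul_assoc, mul_inv_cancel₀ ht1, one_mul]
      have h8 : ⟪n, d2 φ u v z⟫ = t * ⟪ξ, d2 φ u v z⟫ - (1 + t) * ⟪φ z, d2 φ u v z⟫ := by
        rw [hn, inner_sub_left, real_inner_smul_left, real_inner_smul_left]
      have h9 : 2 * (1 + t) * ((1 + t)⁻¹ * ⟪n, d2 φ u v z⟫ - ⟪d1 φ u z, d1 φ v z⟫) =
          2 * (t * ⟪ξ, d2 φ u v z⟫ - (1 + t) * ⟪φ z, d2 φ u v z⟫) -
            2 * (1 + t) * ⟪d1 φ u z, d1 φ v z⟫ := by
        rw [← h8]
        linear_combination 2 * h7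
      rw [h9]
      unfold d2 Pool.Agent.Y503.RB.d1
      rw [inner_sub_left] at h2
      linear_combination -h2
    rw [eq_comm, div_mul_eq_mul_div, div_eq_iff hD', ← h6]
    ring

end Pool.Agent.Y141.RB
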